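import Mathlib
import Pool.Agent.T6.H80.MT.Dat.Ck0
import Pool.Agent.T6.H80.MT.Dat.Ck1
import Pool.Agent.T6.H80.MT.Dat.Ck2
import Pool.Agent.T6.H80.MT.Dat.Ck3
import Pool.Agent.T6.H80.MT.Dat.Ck4
import Pool.Agent.T6.H80.MT.Dat.Ck5
import Pool.Agent.T6.H80.MT.Dat.Ck6
import Pool.Agent.T6.H80.MT.Dat.Ck7

set_option autoImplicit false
set_option maxRecDepth 100000

namespace Pool.Agent.T6.H80.MT

theorem vtab_core : ∀ i < 132, coreq (vat vtab i) := by decide +kernel

theorem al0 : All1 vtab dbt 256 := run1_sound cs0 (All1.zero vtab dbt) ck0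
theorem al1 : All1 vtab dbt 512 := run1_sound cs1 al0 ck1
theorem al2 : All1 vtab dbt 768 := run1_sound cs2 al1 ck2
theorem al3 : All1 vtab dbt 1024 := run1_sound cs3 al2 ck3
theorem al4 : All1 vtab dbt 1280 := run1_sound cs4 al3 ck4
theorem al5 : All1 vtab dbt 1536 := run1_sound cs5 al4 ck5
theorem al6 : All1 vtab dbt 1792 := run1_sound cs6 al5 ck6
theorem al7 : All1 vtab dbt 2048 := run1_sound cs7 al6 ck7
theorem al8 : All1 vtab dbt 2304 := run1_sound cs8 al7 ck8
theorem al9 : All1 vtab dbt 2560 := run1_sound cs9 al8 ck9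
theorem al10 : All1 vtab dbt 2816 := run1_sound cs10 al9 ck10
theorem al11 : All1 vtab dbt 3072 := run1_sound cs11 al10 ck11
theorem al12 : All1 vtab dbt 3328 := run1_sound cs12 al11 ck12
theorem al13 : All1 vtab dbt 3584 := run1_sound cs13 al12 ck13
theorem al14 : All1 vtab dbt 3840 := run1_sound cs14 al13 ck14
theorem al15 : All1 vtab dbt 4096 := run1_sound cs15 al14 ck15
theorem al16 : All1 vtab dbt 4352 := run1_sound cs16 al15 ck16
theorem al17 : All1 vtab dbt 4608 := run1_sound cs17 al16 ck17
theorem al18 : All1 vtab dbt 4864 := run1_sound cs18 al17 ck18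
theorem al19 : All1 vtab dbt 5120 := run1_sound cs19 al18 ck19
theorem al20 : All1 vtab dbt 5376 := run1_sound cs20 al19 ck20
theorem al21 : All1 vtab dbt 5632 := run1_sound cs21 al20 ck21
theorem al22 : All1 vtab dbt 5888 := run1_sound cs22 al21 ck22
theorem al23 : All1 vtab dbt 6144 := run1_sound cs23 al22 ck23
theorem al24 : All1 vtab dbt 6400 := run1_sound cs24 al23 ck24
theorem al25 : All1 vtab dbt 6656 := run1_sound cs25 al24 ck25
theorem al26 : All1 vtab dbt 6912 := run1_sound cs26 al25 ck26
theorem al27 : All1 vtab dbt 7168 := run1_sound cs27 al26 ck27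
theorem al28 : All1 vtab dbt 7424 := run1_sound cs28 al27 ck28
theorem al29 : All1 vtab dbt 7680 := run1_sound cs29 al28 ck29
theorem al30 : All1 vtab dbt 7936 := run1_sound cs30 al29 ck30
theorem al31 : All1 vtab dbt 8192 := run1_sound cs31 al30 ck31
theorem al32 : All1 vtab dbt 8448 := run1_sound cs32 al31 ck32
theorem al33 : All1 vtab dbt 8704 := run1_sound cs33 al32 ck33
theorem al34 : All1 vtab dbt 8960 := run1_sound cs34 al33 ck34
theorem al35 : All1 vtab dbt 9216 := run1_sound cs35 al34 ck35
theorem al36 : All1 vtab dbt 9472 := run1_sound cs36 al35 ck36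
theorem al37 : All1 vtab dbt 9728 := run1_sound cs37 al36 ck37
theorem al38 : All1 vtab dbt 9984 := run1_sound cs38 al37 ck38
theorem al39 : All1 vtab dbt 10240 := run1_sound cs39 al38 ck39
theorem al40 : All1 vtab dbt 10496 := run1_sound cs40 al39 ck40
theorem al41 : All1 vtab dbt 10752 := run1_sound cs41 al40 ck41
theorem al42 : All1 vtab dbt 11008 := run1_sound cs42 al41 ck42
theorem al43 : All1 vtab dbt 11264 := run1_sound cs43 al42 ck43
theorem al44 : All1 vtab dbt 11520 := run1_sound cs44 al43 ck44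
theorem al45 : All1 vtab dbt 11776 := run1_sound cs45 al44 ck45
theorem al46 : All1 vtab dbt 12032 := run1_sound cs46 al45 ck46
theorem al47 : All1 vtab dbt 12288 := run1_sound cs47 al46 ck47
theorem al48 : All1 vtab dbt 12544 := run1_sound cs48 al47 ck48
theorem al49 : All1 vtab dbt 12800 := run1_sound cs49 al48 ck49
theorem al50 : All1 vtab dbt 12885 := run1_sound cs50 al49 ck50
theorem al51 : All2 vtab dbt 13141 := run2_sound cs51 (al50.toAll2 vtab_core) ck51
theorem al52 : All2 vtab dbt 13397 := run2_sound cs52 al51 ck52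
theorem al53 : All2 vtab dbt 13653 := run2_sound cs53 al52 ck53
theorem al54 : All2 vtab dbt 13909 := run2_sound cs54 al53 ck54
theorem al55 : All2 vtab dbt 14165 := run2_sound cs55 al54 ck55
theorem al56 : All2 vtab dbt 14421 := run2_sound cs56 al55 ck56
theorem al57 : All2 vtab dbt 14677 := run2_sound cs57 al56 ck57
theorem al58 : All2 vtab dbt 14933 := run2_sound cs58 al57 ck58
theorem al59 : All2 vtab dbt 15189 := run2_sound cs59 al58 ck59
theorem al60 : All2 vtab dbt 15352 := run2_sound cs60 al59 ck60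

/-- There is no realization of the 17 curves. -/
theorem noRz (R : Rz 17) : False :=
  al60.absurd 15351 (by norm_num) (by decide +kernel) R

end Pool.Agent.T6.H80.MT
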