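import Mathlib
import Pool.Agent.T6.H80.MT.Dat.Lf0
import Pool.Agent.T6.H80.MT.Dat.Lf1
import Pool.Agent.T6.H80.MT.Dat.Lf2
import Pool.Agent.T6.H80.MT.Dat.Lf3

set_option autoImplicit false
set_option maxRecDepth 100000

namespace Pool.Agent.T6.H80.MT

/-- The codes of the variables. -/
def vtab : ℕ := 0x200025000118000840003e0001d0000d31b191878c8c1c6460232322d91876c8c1b64601b2324d89876c4c1b62601b13227918d3c8c19e4600f23247898d3c4c19e2600f1324769913b4c19da600ed3223918d1c8c38e4600723243898d1c4c38e260071324369911b4c38da6006d3243399119cc68ce600673220918d048c382460c123240898d044c382260c1132406991034c381a60c0d3240399101cc680e60c073240199100cc680661c032dcf81657c0b1be0589f02dee8165740b1ba0589d02e0e796573cb1b9e589cf2de5816e2c0b1960588b02e05796e2bcb195e588af2e05716f2b8b195c588ae2de3816e1c0b28e0588702e03796e1bcb28de5886f2e03716f1b8b28dc5886e2e03296f194b70ca588652de2816e140b28a058c502e02796e13cb289e58c4f2e02716f138b289c58c4e2e02296f114b708a58c452e02196f10cb70865944324ac912464890b244b0b2248591212c8991584b09224a49121248991184c885258191250c8920644c82c2641293209075c223a6111d1088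e1844782e23a5711d0b88e15c478ae03a5701d0b80e15c0782623ad311d0988e14c478a603ad301d0980e14c078a563c12b1e0888eb44474a22385111e2880eb44074a20385101e2858f042c78a123c1091e0188eb0c4748623a0311e2180eb0c0748603a0301e2158f00ac788523c0291e2140f00a055b1e2998f140c78ac5bc532de2816f15eb60ac33c5599e280cf15e660af32c5601e2ac0f14c078af030578162bc06114b70875b8422dc22d4e10ea70845384729622cee114770843b8471d6238ea1164708a2384391c2388b11c4508e21c3329a1894d0c2a686a3343119a184cd0da6506a1343309a1844d0da2506d1183505a1982d0c41686d0a83684c1b42228a951404a8a4954500aa294549402a4a48145140a29404945024a500a52405248561212b0929184848c25842921214928584902c25812924094960484942420c741053a083990414c82106390531c83950418a82105390629c8414c41ca61d0958e14ac74a163850b1d6848e1424748563a02b1d6148e80a4758503a428188648c33246311230c89192430c3218630d231069192330c4198648c83186414cb60a05b055998280cc158658a032c558182980c158058a602c5600c2ac0610ea588452c451d6210eb116750843a84511621c8b116450872284590e228870c465061328330941844a0d423061118330541882a0d4130620983504419822090a60435302521810d0c09885043428250d81206c098350481a8260d01286804e960224b0149d8088ec058748223a41489809c4c058248271241608e0a447004440002200209000048010220001100201000808010020020100400401002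

def tr0 : DB := (.node (.node (.node (.node lf0 lf128) (.node lf64 lf192)) (.node (.node lf32 lf160) (.node lf96 lf224))) (.node (.node (.node lf16 lf144) (.node lf80 lf208)) (.node (.node lf48 lf176) (.node lf112 (.leaf 0 0 0)))))

def tr1 : DB := (.node (.node (.node (.node lf1 lf129) (.node lf65 lf193)) (.node (.node lf33 lf161) (.node lf97 lf225))) (.node (.node (.node lf17 lf145) (.node lf81 lf209)) (.node (.node lf49 lf177) (.node lf113 (.leaf 0 0 0)))))

def tr2 : DB := (.node (.node (.node (.node lf2 lf130) (.node lf66 lf194)) (.node (.node lf34 lf162) (.node lf98 lf226))) (.node (.node (.node lf18 lf146) (.node lf82 lf210)) (.node (.node lf50 lf178) (.node lf114 (.leaf 0 0 0)))))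

def tr3 : DB := (.node (.node (.node (.node lf3 lf131) (.node lf67 lf195)) (.node (.node lf35 lf163) (.node lf99 lf227))) (.node (.node (.node lf19 lf147) (.node lf83 lf211)) (.node (.node lf51 lf179) (.node lf115 (.leaf 0 0 0)))))

def tr4 : DB := (.node (.node (.node (.node lf4 lf132) (.node lf68 lf196)) (.node (.node lf36 lf164) (.node lf100 lf228))) (.node (.node (.node lf20 lf148) (.node lf84 lf212)) (.node (.node lf52 lf180) (.node lf116 (.leaf 0 0 0)))))

def tr5 : DB := (.node (.node (.node (.node lf5 lf133) (.node lf69 lf197)) (.node (.node lf37 lf165) (.node lf101 lf229))) (.node (.node (.node lf21 lf149) (.node lf85 lf213)) (.node (.node lf53 lf181) (.node lf117 (.leaf 0 0 0)))))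

def tr6 : DB := (.node (.node (.node (.node lf6 lf134) (.node lf70 lf198)) (.node (.node lf38 lf166) (.node lf102 lf230))) (.node (.node (.node lf22 lf150) (.node lf86 lf214)) (.node (.node lf54 lf182) (.node lf118 (.leaf 0 0 0)))))

def tr7 : DB := (.node (.node (.node (.node lf7 lf135) (.node lf71 lf199)) (.node (.node lf39 lf167) (.node lf103 lf231))) (.node (.node (.node lf23 lf151) (.node lf87 lf215)) (.node (.node lf55 lf183) (.node lf119 (.leaf 0 0 0)))))

def tr8 : DB := (.node (.node (.node (.node lf8 lf136) (.node lf72 lf200)) (.node (.node lf40 lf168) (.node lf104 lf232))) (.node (.node (.node lf24 lf152) (.node lf88 lf216)) (.node (.node lf56 lf184) (.node lf120 (.leaf 0 0 0)))))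

def tr9 : DB := (.node (.node (.node (.node lf9 lf137) (.node lf73 lf201)) (.node (.node lf41 lf169) (.node lf105 lf233))) (.node (.node (.node lf25 lf153) (.node lf89 lf217)) (.node (.node lf57 lf185) (.node lf121 (.leaf 0 0 0)))))

def tr10 : DB := (.node (.node (.node (.node lf10 lf138) (.node lf74 lf202)) (.node (.node lf42 lf170) (.node lf106 lf234))) (.node (.node (.node lf26 lf154) (.node lf90 lf218)) (.node (.node lf58 lf186) (.node lf122 (.leaf 0 0 0)))))

def tr11 : DB := (.node (.node (.node (.node lf11 lf139) (.node lf75 lf203)) (.node (.node lf43 lf171) (.node lf107 lf235))) (.node (.node (.node lf27 lf155) (.node lf91 lf219)) (.node (.node lf59 lf187) (.node lf123 (.leaf 0 0 0)))))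

def tr12 : DB := (.node (.node (.node (.node lf12 lf140) (.node lf76 lf204)) (.node (.node lf44 lf172) (.node lf108 lf236))) (.node (.node (.node lf28 lf156) (.node lf92 lf220)) (.node (.node lf60 lf188) (.node lf124 (.leaf 0 0 0)))))

def tr13 : DB := (.node (.node (.node (.node lf13 lf141) (.node lf77 lf205)) (.node (.node lf45 lf173) (.node lf109 lf237))) (.node (.node (.node lf29 lf157) (.node lf93 lf221)) (.node (.node lf61 lf189) (.node lf125 (.leaf 0 0 0)))))

def tr14 : DB := (.node (.node (.node (.node lf14 lf142) (.node lf78 lf206)) (.node (.node lf46 lf174) (.node lf110 lf238))) (.node (.node (.node lf30 lf158) (.node lf94 lf222)) (.node (.node lf62 lf190) (.node lf126 (.leaf 0 0 0)))))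

def tr15 : DB := (.node (.node (.node (.node lf15 lf143) (.node lf79 lf207)) (.node (.node lf47 lf175) (.node lf111 lf239))) (.node (.node (.node lf31 lf159) (.node lf95 lf223)) (.node (.node lf63 lf191) (.node lf127 (.leaf 0 0 0)))))

/-- The clauses. -/
def dbt : DB := (.node (.node (.node (.node tr0 tr8) (.node tr4 tr12)) (.node (.node tr2 tr10) (.node tr6 tr14))) (.node (.node (.node tr1 tr9) (.node tr5 tr13)) (.node (.node tr3 tr11) (.node tr7 tr15))))

end Pool.Agent.T6.H80.MT
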